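import Mathlib.Data.Finset.Powerset
import Mathlib.Data.Set.Card
import Mathlib.Data.Set.Finite.Basic
import Mathlib.Order.Lattice.Nat
import Mathlib.Tactic

set_option autoImplicit false

/-!
# MP_522a36_co : a set system on `ℕ` with `s₂ = 2` and `s₃ = 1`
-/

namespace Pool.Agent.Results.MP_522a36_co.NotMonotone

/-- The family `S` shatters the finite set `Y`. -/
def Shat {X : Type} (S : Set (Set X)) (Y : Finset X) : Prop :=
  ∀ Z : Set X, Z ⊆ (Y : Set X) → ∃ A ∈ S, A ∩ (Y : Set X) = Z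

/-- The `k`-fold union family. -/
def unions {X : Type} (S : Set (Set X)) (k : ℕ) : Set (Set X) :=
  {U | ∃ f : Fin k → Set X, (∀ i, f i ∈ S) ∧ U = ⋃ i, f i}

/-- `S` has finite VC-dimension: the sizes of the finite sets it shatters are bounded. -/
def FiniteVC {X : Type} (S : Set (Set X)) : Prop :=
  ∃ d : ℕ, ∀ Y : Finset X, Shat S Y → Y.card ≤ d

/-- The VC-dimension (of a family of finite VC-dimension). -/
noncomputable def vc {X : Type} (S : Set (Set X)) : ℕ :=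
  sSup {d : ℕ | ∃ Y : Finset X, Y.card = d ∧ Shat S Y}

/-- The trace family of `S` on `Y`. -/
def trace {X : Type} (S : Set (Set X)) (Y : Finset X) : Set (Set X) :=
  {T | ∃ A ∈ S, A ∩ (Y : Set X) = T}

/-- `Y` and `Y'` are shatter-isomorphic: some bijection from `Y` to `Y'` carries the trace family of
`S` on `Y` to the one on `Y'`. -/
def Iso {X : Type} (S : Set (Set X)) (Y Y' : Finset X) : Prop :=
  ∃ f : X → X, Set.BijOn f (Y : Set X) (Y' : Set X) ∧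
    {T' | ∃ T ∈ trace S Y, f '' T = T'} = trace S Y'

/-- The sets of size `d_k = VC(S^{∪k})` shattered by `S^{∪k}`. -/
def top {X : Type} (S : Set (Set X)) (k : ℕ) : Set (Finset X) :=
  {Y | Y.card = vc (unions S k) ∧ Shat (unions S k) Y}

/-- `s_k`: the number of shatter-isomorphism classes of these sets. -/
noncomputable def sk {X : Type} (S : Set (Set X)) (k : ℕ) : ℕ :=
  Set.ncard {C : Set (Finset X) | ∃ Y ∈ top S k, C = {Y' | Y' ∈ top S k ∧ Iso S Y Y'}}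

/-- The members of the example, as finite sets. -/
def S0 : Finset (Finset ℕ) := {∅, {1}, {2}, {3}, {4}, {1, 2}, {1, 2, 3}}

/-- The example. -/
def S : Set (Set ℕ) := {A | ∃ a ∈ S0, A = (a : Set ℕ)}

lemma S0_sub : ∀ a ∈ S0, a ⊆ {1, 2, 3, 4} := by decide

/-- sets shattered by a union family lie in `{1,2,3,4}` -/
lemma sub_of_shat {k : ℕ} {Y : Finset ℕ} (h : Shat (unions S k) Y) : Y ⊆ {1, 2, 3, 4} := by
  obtain ⟨U, ⟨f, hf, rfl⟩, hU⟩ := h (Y : Set ℕ) (le_refl _)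
  intro x hx
  have h1 : x ∈ (⋃ i, f i) ∩ (Y : Set ℕ) := by
    rw [hU]
    exact hx
  obtain ⟨i, hi⟩ := Set.mem_iUnion.1 h1.1
  obtain ⟨a, ha, hfa⟩ := hf i
  rw [hfa] at hi
  exact S0_sub a ha hi

/-- unions of members of the example, in terms of finite sets -/
lemma two_mem {U : Set ℕ} (hU : U ∈ unions S 2) : ∃ a ∈ S0, ∃ b ∈ S0, U = ((a ∪ b : Finset ℕ) : Set ℕ) := by
  obtain ⟨f, hf, rfl⟩ := hU
  obtain ⟨a, ha, hfa⟩ := hf 0
  obtain ⟨b, hb, hfb⟩ := hf 1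
  refine ⟨a, ha, b, hb, ?_⟩
  ext x
  simp only [Set.mem_iUnion, Fin.exists_fin_two, hfa, hfb, Finset.coe_union, Set.mem_union]

lemma mem_two {a b : Finset ℕ} (ha : a ∈ S0) (hb : b ∈ S0) :
    ((a ∪ b : Finset ℕ) : Set ℕ) ∈ unions S 2 := by
  refine ⟨![(a : Set ℕ), (b : Set ℕ)], ?_, ?_⟩
  · intro i
    fin_cases i
    · exact ⟨a, ha, rfl⟩
    · exact ⟨b, hb, rfl⟩
  · ext x
    simp [Fin.exists_fin_two]

lemma mem_three {a b c : Finset ℕ} (ha : a ∈ S0) (hb : b ∈ S0) (hc : c ∈ S0) :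
    ((a ∪ b ∪ c : Finset ℕ) : Set ℕ) ∈ unions S 3 := by
  refine ⟨![(a : Set ℕ), (b : Set ℕ), (c : Set ℕ)], ?_, ?_⟩
  · intro i
    fin_cases i
    · exact ⟨a, ha, rfl⟩
    · exact ⟨b, hb, rfl⟩
    · exact ⟨c, hc, rfl⟩
  · ext x
    simp only [Finset.coe_union, Set.mem_union, Set.mem_iUnion]
    constructor
    · rintro ((h | h) | h)
      · exact ⟨0, h⟩
      · exact ⟨1, h⟩
      · exact ⟨2, h⟩
    · rintro ⟨i, h⟩
      fin_cases i
      · exact Or.inl (Or.inl h)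
      · exact Or.inl (Or.inr h)
      · exact Or.inr h

/-- any subset of a coerced finset is a coerced member of its powerset -/
lemma coe_of_sub {Y : Finset ℕ} {Z : Set ℕ} (h : Z ⊆ (Y : Set ℕ)) :
    ∃ z ∈ Y.powerset, Z = (z : Set ℕ) := by
  classical
  have hfin : Z.Finite := Y.finite_toSet.subset h
  refine ⟨hfin.toFinset, ?_, by simp⟩
  rw [Finset.mem_powerset]
  intro x hx
  exact h (hfin.mem_toFinset.1 hx)

lemma shat_two_aux : ∀ Y ∈ (({1, 2, 3, 4} : Finset ℕ).powersetCard 3), ∀ z ∈ Y.powerset,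
    ∃ a ∈ S0, ∃ b ∈ S0, (a ∪ b) ∩ Y = z := by decide

lemma shat_two {Y : Finset ℕ} (hY : Y ∈ (({1, 2, 3, 4} : Finset ℕ).powersetCard 3)) :
    Shat (unions S 2) Y := by
  intro Z hZ
  obtain ⟨z, hz, rfl⟩ := coe_of_sub hZ
  obtain ⟨a, ha, b, hb, hab⟩ := shat_two_aux Y hY z hz
  refine ⟨_, mem_two ha hb, ?_⟩
  rw [← Finset.coe_inter, hab]

lemma not_shat_aux : ∀ a ∈ S0, ∀ b ∈ S0, (a ∪ b) ∩ ({1, 2, 3, 4} : Finset ℕ) ≠ {1, 3, 4} := by
  decide

lemma not_shat : ¬ Shat (unions S 2) {1, 2, 3, 4} := by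
  intro h
  obtain ⟨U, hU, hUZ⟩ := h (({1, 3, 4} : Finset ℕ) : Set ℕ) (by
    intro x hx
    rw [Finset.mem_coe] at hx ⊢
    revert hx
    have : ({1, 3, 4} : Finset ℕ) ⊆ {1, 2, 3, 4} := by decide
    exact fun hx => this hx)
  obtain ⟨a, ha, b, hb, rfl⟩ := two_mem hU
  rw [← Finset.coe_inter, Finset.coe_inj] at hUZ
  exact not_shat_aux a ha b hb hUZ

lemma shat_three_aux : ∀ z ∈ ({1, 2, 3, 4} : Finset ℕ).powerset,
    ∃ a ∈ S0, ∃ b ∈ S0, ∃ c ∈ S0, (a ∪ b ∪ c) ∩ ({1, 2, 3, 4} : Finset ℕ) = z := by decide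

lemma shat_three : Shat (unions S 3) {1, 2, 3, 4} := by
  intro Z hZ
  obtain ⟨z, hz, rfl⟩ := coe_of_sub hZ
  obtain ⟨a, ha, b, hb, c, hc, hab⟩ := shat_three_aux z hz
  refine ⟨_, mem_three ha hb hc, ?_⟩
  rw [← Finset.coe_inter, hab]

lemma vc_two : vc (unions S 2) = 3 := by
  apply IsGreatest.csSup_eq
  constructor
  · refine ⟨{1, 2, 3}, rfl, shat_two (by decide)⟩
  · rintro d ⟨Y, rfl, hY⟩
    have h1 := sub_of_shat hY
    have h2 := Finset.card_le_card h1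
    have h3 : ({1, 2, 3, 4} : Finset ℕ).card = 4 := rfl
    rw [h3] at h2
    by_contra h4
    have h5 : Y = {1, 2, 3, 4} := Finset.eq_of_subset_of_card_le h1 (by rw [h3]; omega)
    rw [h5] at hY
    exact not_shat hY

lemma vc_three : vc (unions S 3) = 4 := by
  apply IsGreatest.csSup_eq
  constructor
  · exact ⟨{1, 2, 3, 4}, rfl, shat_three⟩
  · rintro d ⟨Y, rfl, hY⟩
    exact Finset.card_le_card (sub_of_shat hY)

/-- on `{1,2,3}` the whole set is a trace, on `{1,3,4}` it is not -/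
lemma not_iso : ¬ Iso S {1, 2, 3} {1, 3, 4} := by
  rintro ⟨f, hf, h⟩
  have h1 : (({1, 2, 3} : Finset ℕ) : Set ℕ) ∈ trace S {1, 2, 3} :=
    ⟨(({1, 2, 3} : Finset ℕ) : Set ℕ), ⟨_, by decide, rfl⟩, Set.inter_self _⟩
  have h2 : (({1, 3, 4} : Finset ℕ) : Set ℕ) ∈ trace S {1, 3, 4} := by
    rw [← h]
    exact ⟨_, h1, hf.image_eq⟩
  obtain ⟨A, ⟨a, ha, rfl⟩, hA⟩ := h2
  rw [← Finset.coe_inter, Finset.coe_inj] at hA
  have h3 : ∀ a ∈ S0, a ∩ ({1, 3, 4} : Finset ℕ) ≠ {1, 3, 4} := by decide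
  exact h3 a ha hA

lemma iso_refl (Y : Finset ℕ) : Iso S Y Y := by
  refine ⟨id, Set.bijOn_id _, ?_⟩
  ext T
  simp

theorem result : ∃ (X : Type) (S : Set (Set X)), Infinite X ∧ FiniteVC S ∧
    ∃ k : ℕ, 1 ≤ k ∧ sk S (k + 1) < sk S k := by
  refine ⟨ℕ, S, inferInstance, ?_, 2, by norm_num, ?_⟩
  · refine ⟨4, fun Y hY => ?_⟩
    have h1 : Shat (unions S 1) Y := by
      intro Z hZ
      obtain ⟨A, hA, hAZ⟩ := hY Z hZ
      exact ⟨A, ⟨fun _ => A, fun _ => hA, (Set.iUnion_const A).symm⟩, hAZ⟩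
    exact Finset.card_le_card (sub_of_shat h1)
  · -- `s₃ ≤ 1`
    have h3 : sk S 3 ≤ 1 := by
      have htop : ∀ Y, Y ∈ top S 3 → Y = {1, 2, 3, 4} := by
        rintro Y ⟨hc, hs⟩
        rw [vc_three] at hc
        exact Finset.eq_of_subset_of_card_le (sub_of_shat hs) (by rw [hc]; rfl)
      have hone : {C : Set (Finset ℕ) | ∃ Y ∈ top S 3, C = {Y' | Y' ∈ top S 3 ∧ Iso S Y Y'}} =
          {{Y' | Y' ∈ top S 3 ∧ Iso S {1, 2, 3, 4} Y'}} := by
        ext C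
        constructor
        · rintro ⟨Y, hY, rfl⟩
          rw [htop Y hY]
          rfl
        · intro hC
          refine ⟨{1, 2, 3, 4}, ⟨by rw [vc_three]; rfl, shat_three⟩, hC⟩
      rw [sk, hone, Set.ncard_singleton]
    -- `s₂ ≥ 2`
    have h2 : 1 < sk S 2 := by
      have hfin : {C : Set (Finset ℕ) | ∃ Y ∈ top S 2,
          C = {Y' | Y' ∈ top S 2 ∧ Iso S Y Y'}}.Finite := by
        have h4 : (top S 2).Finite := by
          refine (({1, 2, 3, 4} : Finset ℕ).powerset.finite_toSet).subset ?_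
          rintro Y ⟨-, hs⟩
          rw [Finset.mem_coe, Finset.mem_powerset]
          exact sub_of_shat hs
        refine (h4.image (fun Y => {Y' | Y' ∈ top S 2 ∧ Iso S Y Y'})).subset ?_
        rintro C ⟨Y, hY, rfl⟩
        exact ⟨Y, hY, rfl⟩
      rw [sk, Set.one_lt_ncard_iff hfin]
      have ha : ({1, 2, 3} : Finset ℕ) ∈ top S 2 := ⟨by rw [vc_two]; rfl, shat_two (by decide)⟩
      have hb : ({1, 3, 4} : Finset ℕ) ∈ top S 2 := ⟨by rw [vc_two]; rfl, shat_two (by decide)⟩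
      refine ⟨_, _, ⟨{1, 2, 3}, ha, rfl⟩, ⟨{1, 3, 4}, hb, rfl⟩, ?_⟩
      intro h
      have h5 : ({1, 3, 4} : Finset ℕ) ∈ {Y' | Y' ∈ top S 2 ∧ Iso S {1, 3, 4} Y'} :=
        ⟨hb, iso_refl _⟩
      rw [← h] at h5
      exact not_iso h5.2
    exact lt_of_le_of_lt h3 h2

end Pool.Agent.Results.MP_522a36_co.NotMonotone
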